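import Pool.Agent.J4.H94.CC.Knot
import Pool.Agent.W709.RT.San
import Pool.Agent.H105R3.JSanCurl
import Pool.Agent.H309R4.Jones.SanU
import Pool.Agent.H550R3.Jones.SanSkein699
import Pool.Agent.H927R2.J.SanYB
import Pool.Agent.H309R4.Jones.SanI
import Pool.Agent.H22R3.J.Nat

/-!
# The C-curve of the knot `8_3` has a component of positive geometric genus

`8_3 = C(4, 4)` is the two-bridge knot with one twist region of `4` crossings and one of `4`
opposite crossings.  Cut open it is the (1,1)-tangle of the following picture: start with one strand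
and a cup to its right (three strands), perform `4` crossings between the strands 1 and 2, then `4`
opposite crossings between the strands 2 and 3, close the strands 1 and 2 by a cap; the third strand
leaves.

The coloured Jones function `J(n)` is defined from the R-matrix of `U_q(sl_2)` over the field
`ℚ(v)`, `v = q^(1/2)`; all brackets are `{a} = v^a - v^(-a) = q^(a/2) - q^(-a/2)`.  With these
brackets in `C(n, k) = {n-k} ⋯ {n-1} {n+1} ⋯ {n+k}` the C-polynomials of the trefoil and of the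
figure eight knot are `E + Q` and `E - 1`.

The cyclotomic function of `8_3` is `Ĵ(n) = S_n(q) S_n(1/q)`, `S_n(q) = ∑_j q^(j(j+1)) [n, j]_q`.
At `q = 1` its C-polynomial has the roots `E = x y`, where
`x² - (Q² - Q + 2) x + (1 - Q) = 0` and `y² - (Q⁻² - Q⁻¹ + 2) y + (1 - Q⁻¹) = 0`; the
discriminants are `Q² (Q² - 2 Q + 5)` and `Q⁻⁴ (5 Q² - 2 Q + 1)`, and the component is a curve of
genus one.
-/

set_option autoImplicit false

namespace Pool.Agent.Results.MP_4fdcc5_gt.PositiveGenusCCurve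

open Finset Polynomial Filter

/-! ### The coloured Jones function of `8_3` -/

section knot

variable {K : Type} [Field K]

/-- `{n} = v^n - v^{-n}` -/
def br (v : K) (n : ℤ) : K := v ^ n - v ^ (-n)

/-- `{n}! = {1} {2} ⋯ {n}` -/
def brf (v : K) (n : ℕ) : K := ∏ j ∈ range n, br v ((j : ℤ) + 1)

/-- The positive crossing: the R-matrix of `U_q(sl_2)` on `V_N ⊗ V_N`, `V_N` with basis
`e_0, …, e_{N-1}`, times the framing factor `v^{-(N^2-1)/2}`; `crossP N v p q` is the coefficient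
of `e_{p.1} ⊗ e_{p.2}` in the image of `e_{q.1} ⊗ e_{q.2}`:
`e_i ⊗ e_j ↦ ∑_n v^{-(N-1)(1+i+j) + 2(i-n)(j+n) + n(n-1)/2}
({j+n}! / ({j}! {n}!)) ∏_{t<n} {N-i+t} e_{j+n} ⊗ e_{i-n}`. -/
def crossP (N : ℕ) (v : K) : Matrix (Fin N × Fin N) (Fin N × Fin N) K :=
  fun p q => if (p.1 : ℕ) + p.2 = q.1 + q.2 ∧ (q.2 : ℕ) ≤ p.1 then
    v ^ (-((N : ℤ) - 1) * (1 + (q.1 : ℕ) + (q.2 : ℕ)) + 2 * (p.1 : ℕ) * (p.2 : ℕ)) *
      v ^ (((p.1 : ℕ) - q.2) * ((p.1 : ℕ) - q.2 - 1) / 2) *
      (brf v p.1 / (brf v q.2 * brf v ((p.1 : ℕ) - q.2))) *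
      ∏ t ∈ range ((p.1 : ℕ) - q.2), br v ((N : ℤ) - (q.1 : ℕ) + t)
    else 0

/-- The negative crossing, inverse of `crossP N v`:
`e_i ⊗ e_j ↦ ∑_n (-1)^n v^{(N-1)(1+i+j) - 2ij - n(n-1)/2}
({i+n}! / ({i}! {n}!)) ∏_{t<n} {N-j+t} e_{j-n} ⊗ e_{i+n}`. -/
def crossN (N : ℕ) (v : K) : Matrix (Fin N × Fin N) (Fin N × Fin N) K :=
  fun p q => if (p.1 : ℕ) + p.2 = q.1 + q.2 ∧ (q.1 : ℕ) ≤ p.2 then
    (-1) ^ ((p.2 : ℕ) - q.1) *
      v ^ (((N : ℤ) - 1) * (1 + (q.1 : ℕ) + (q.2 : ℕ)) - 2 * (q.1 : ℕ) * (q.2 : ℕ)) /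
      v ^ (((p.2 : ℕ) - q.1) * ((p.2 : ℕ) - q.1 - 1) / 2) *
      (brf v p.2 / (brf v q.1 * brf v ((p.2 : ℕ) - q.1))) *
      ∏ t ∈ range ((p.2 : ℕ) - q.1), br v ((N : ℤ) - (q.2 : ℕ) + t)
    else 0

/-- The crossing `A` on the strands number `k` and `k + 1` (counted from `0`) of `n` strands. -/
def gen {ι : Type} [DecidableEq ι] (A : Matrix (ι × ι) (ι × ι) K) (n k : ℕ) :
    Matrix (Fin n → ι) (Fin n → ι) K :=
  fun s t => if h : k + 1 < n then
    (if ∀ j : Fin n, (j : ℕ) ≠ k → (j : ℕ) ≠ k + 1 → s j = t j then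
      A (s ⟨k, by omega⟩, s ⟨k + 1, h⟩) (t ⟨k, by omega⟩, t ⟨k + 1, h⟩) else 0)
    else (if s = t then 1 else 0)

/-- The operator of a braid word on `n` strands (the last letter acts first): the letter
`(k, true)` is the crossing `P`, the letter `(k, false)` the crossing `Q` on the strands number `k`
and `k + 1`. -/
def rep {ι : Type} [Fintype ι] [DecidableEq ι] (P Q : Matrix (ι × ι) (ι × ι) K) (n : ℕ)
    (w : List (ℕ × Bool)) : Matrix (Fin n → ι) (Fin n → ι) K :=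
  (w.map fun g => gen (if g.2 then P else Q) n g.1).prod

/-- The coefficients of the invariant vector `∑_k kap k e_k ⊗ e_{N-1-k}` of `V_N ⊗ V_N`:
`kap k = (-1)^k v^{k(N-2-k)} {k}! {N-1-k}! / {N-1}!`. -/
def kap (N : ℕ) (v : K) (k : ℕ) : K :=
  (-1) ^ k * v ^ ((k : ℤ) * ((N : ℤ) - 2 - k)) * (brf v k * brf v (N - 1 - k) / brf v (N - 1))

/-- The cup: the invariant vector of `V_N ⊗ V_N`. -/
def cup (N : ℕ) (v : K) (p : Fin N × Fin N) : K :=
  if (p.1 : ℕ) + p.2 = N - 1 then kap N v p.1 else 0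

/-- The cap: the invariant linear form on `V_N ⊗ V_N`. -/
def cap (N : ℕ) (v : K) (p : Fin N × Fin N) : K :=
  if (p.1 : ℕ) + p.2 = N - 1 then (kap N v p.2)⁻¹ else 0

/-- The operator `V_N → V_N` of the (1,1)-tangle: a cup between the strands 2 and 3, the braid word
`w` on three strands, a cap between the strands 1 and 2. -/
def tangle (N : ℕ) (w : List (ℕ × Bool)) (v : K) : Matrix (Fin N) (Fin N) K :=
  fun i j => ∑ p : Fin N × Fin N, ∑ q : Fin N × Fin N,
    cap N v p * rep (crossP N v) (crossN N v) 3 w ![p.1, p.2, i] ![j, q.1, q.2] * cup N v q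

/-- `8_3`: `4` crossings between the strands 1 and 2, then `4` opposite crossings between the
strands 2 and 3. -/
def word : List (ℕ × Bool) := List.replicate 4 (1, false) ++ List.replicate 4 (0, true)

/-- The coloured Jones function of `8_3`, normalised to be `1` for the unknot: the entry of the
(1,1)-tangle operator at the highest weight vector `e_0` of the `N`-dimensional module.
(The diagram has writhe `0`, and the framing factors of the crossings cancel.) -/
def jones (v : K) (N : ℕ) : K :=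
  if h : 0 < N then tangle N word v ⟨0, h⟩ ⟨0, h⟩ else 0

end knot

/-! ### The cyclotomic function -/

/-- The field `ℚ(v)`, `v = q^(1/2)`. -/
abbrev Kv := RatFunc ℚ

/-- `v = q^(1/2)` -/
noncomputable def v : Kv := RatFunc.X

/-- `q` -/
noncomputable def q : Kv := v ^ 2

/-- `C(n, k) = {n-k} ⋯ {n-1} {n+1} ⋯ {n+k}`; it vanishes for `k ≥ n`. -/
noncomputable def C' (n k : ℕ) : Kv :=
  ∏ j ∈ range k, (br v ((n : ℤ) - ((j : ℤ) + 1)) * br v ((n : ℤ) + ((j : ℤ) + 1)))

/-- `f` is the cyclotomic function `Ĵ` of `8_3`: `J(n) = ∑_{k ≥ 0} C(n, k) f(k)` for all `n ≥ 1`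
(the terms with `k ≥ n` vanish). -/
def IsCyclotomic (f : ℕ → Kv) : Prop :=
  ∀ n : ℕ, 1 ≤ n → jones v n = ∑ k ∈ range n, C' n k * f k

/-! ### Operators

Up to left multiplication by a nonzero element of `ℤ[q, Q]` every element of `𝒜_loc = ℚ(q, Q)⟨E⟩`
is of the form `∑_j b_j E^j` with `b_j ∈ ℤ[q, Q]`; it is given by the polynomial
`b : ℤ[q][Q][X]` with these coefficients (`X` stands for `E`). -/

/-- `ℤ[q, Q]`: the inner variable is `q`, the outer variable is `Q`. -/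
abbrev Coef := Polynomial (Polynomial ℤ)

/-- `α(Q, q) ↦ α(q Q, q)` -/
noncomputable def sigma : Coef →+* Coef := eval₂RingHom C (C X * X)

/-- `E ∘ b = ∑_j b_j(q Q, q) E^(j+1)` -/
noncomputable def shift (b : Coef[X]) : Coef[X] := X * b.map sigma

/-- The product `a ∘ b = ∑_i a_i (E^i ∘ b)` in `𝒜_loc`. -/
noncomputable def skew (a b : Coef[X]) : Coef[X] := a.sum fun i c => C c * shift^[i] b

/-- `α(Q, q) ↦ α(q^n, q)` -/
noncomputable def ev (n : ℕ) : Coef →+* Kv :=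
  eval₂RingHom (eval₂RingHom (Int.castRingHom Kv) q) (q ^ n)

/-- `(P f)(n) = ∑_j P_j(q^n, q) f(n + j)` -/
noncomputable def act (f : ℕ → Kv) (P : Coef[X]) (n : ℕ) : Kv :=
  P.sum fun j p => ev n p * f (n + j)

/-- `P f = 0` (for almost all `n`: an operator `α(Q, q) ≠ 0` is invertible in `𝒜_loc`, and
`α(q^n, q) = 0` can hold for finitely many `n`). -/
def Annihilates (P : Coef[X]) (f : ℕ → Kv) : Prop := ∀ᶠ n in atTop, act f P n = 0

/-- `P = P_f`: a generator of the left ideal of `𝒜_loc` of all operators that annihilate `f`,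
normalised to have coefficients in `ℤ[q, Q]` without common factors (other than divisors of
monomials). -/
structure IsCPolynomial (f : ℕ → Kv) (P : Coef[X]) : Prop where
  ne_zero : P ≠ 0
  annihilates : Annihilates P f
  generates : ∀ B : Coef[X], Annihilates B f → ∃ c : Coef, c ≠ 0 ∧ ∃ a : Coef[X], C c * B = skew a P
  normalised : ∀ d : Coef, (∀ j, d ∣ P.coeff j) → ∃ i j : ℕ, d ∣ C X ^ i * X ^ j

/-! ### The C-curve -/

/-- `α(Q, q) ↦ α(Q, 1)` -/
noncomputable def atOne : Coef →+* ℤ[X] := mapRingHom (evalRingHom 1)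

/-- `C_K(E, Q) = C_K(E, Q, 1)` as a polynomial with complex coefficients (inner variable `Q`, outer
variable `E`). -/
noncomputable def cCurve (P : Coef[X]) : ℂ[X][X] :=
  (P.map atOne).map (mapRingHom (Int.castRingHom ℂ))

/-- The value of `G(E, Q)` at `Q = x`, `E = y`. -/
noncomputable def evalAt (x y : RatFunc ℂ) : ℂ[X][X] →+* RatFunc ℂ :=
  eval₂RingHom (eval₂RingHom (algebraMap ℂ (RatFunc ℂ)) x) y

/-- The irreducible curve `G = 0` is rational: it has a parametrisation by rational functions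
`Q = x(t)`, `E = y(t)`, not both constant.  By the theorems of Clebsch and Lüroth this holds if and
only if its geometric genus is zero. -/
def GenusZero (G : ℂ[X][X]) : Prop :=
  ∃ x y : RatFunc ℂ, ¬ ((∃ c : ℂ, x = RatFunc.C c) ∧ ∃ c : ℂ, y = RatFunc.C c) ∧ evalAt x y G = 0

/-! ### Checks of the definitions (not part of the result) -/

/-- For `N = 2` the crossings satisfy the skein relation of the Jones polynomial. -/
theorem skein (v : ℂ) (hv : v ≠ 0) (h1 : br v 1 ≠ 0) :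
    v ^ 2 • crossP 2 v - (v ^ 2)⁻¹ • crossN 2 v =
      (v - v⁻¹) • (1 : Matrix (Fin 2 × Fin 2) (Fin 2 × Fin 2) ℂ) :=
  Pool.Agent.H550R3.Jones.taskSanSkein v hv h1

/-- The two crossings are inverse to each other. -/
theorem cross_inverse (N : ℕ) (v : ℂ) (hv : v ≠ 0)
    (h : ∀ k : ℕ, 0 < k → k < N → br v k ≠ 0) :
    crossP N v * crossN N v = 1 ∧ crossN N v * crossP N v = 1 :=
  Pool.Agent.H309R4.Jones.SanI.taskSanInv Pool.Agent.H345J.taskMod Pool.Agent.H345J.taskInv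
    Pool.Agent.H559R3.J.taskCross N v ⟨hv, h⟩

/-- The Yang-Baxter equation, for every colour. -/
theorem yang_baxter (N : ℕ) (v : ℂ) (hv : v ≠ 0) (h : ∀ k : ℕ, 0 < k → k < N → br v k ≠ 0) :
    gen (crossP N v) 3 0 * gen (crossP N v) 3 1 * gen (crossP N v) 3 0 =
      gen (crossP N v) 3 1 * gen (crossP N v) 3 0 * gen (crossP N v) 3 1 :=
  Pool.Agent.H927R2.J.SanYB.taskSanYB Pool.Agent.H345J.taskMod Pool.Agent.H345J.taskInt
    Pool.Agent.H345J.taskInv Pool.Agent.H667J.taskHex1 Pool.Agent.H22R3.J.taskNat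
    Pool.Agent.H559R3.J.taskCross N v ⟨hv, h⟩

/-- Zigzag: without crossings the tangle is trivial (the unknot has the value `1`). -/
theorem zigzag (N : ℕ) (v : ℂ) (hv : v ≠ 0) (h : ∀ k : ℕ, 0 < k → k < N → br v k ≠ 0) :
    tangle N [] v = 1 :=
  Pool.Agent.W709.RT.zigzag hv h

/-- For `n = 2` one gets the Jones polynomial of `8_3`. -/
theorem jones_two : jones v 2 = q ^ 4 - q ^ 3 + 2 * q ^ 2 - 3 * q + 3 - 3 * q⁻¹ + 2 * (q ^ 2)⁻¹ -
    (q ^ 3)⁻¹ + (q ^ 4)⁻¹ := by
  have h := Pool.Agent.J4.H94.CC.jones_ratFunc 2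
  have hv : (RatFunc.X : RatFunc ℚ) ≠ 0 := RatFunc.X_ne_zero
  have e : jones v 2 = Pool.Agent.J4.H94.CC.jones 4 (RatFunc.X : RatFunc ℚ) 2 := rfl
  rw [e, h, Finset.sum_range_succ, Finset.sum_range_one]
  exact Pool.Agent.J4.H94.CC.jones_two' _ hv

/-! ### The result -/

lemma isC_iff (f : ℕ → Kv) (P : Coef[X]) :
    IsCPolynomial f P ↔ Pool.Agent.J4.H94.CC.IsC (RatFunc.X ^ 2 : RatFunc ℚ) f P :=
  ⟨fun h => ⟨h.1, h.2, h.3, h.4⟩, fun h => ⟨h.1, h.2, h.3, h.4⟩⟩

/-- **The C-curve of the knot `8_3` has an irreducible component of positive geometric genus.**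
The cyclotomic function `Ĵ` of `8_3` exists and is unique, it has a C-polynomial, and for every
C-polynomial `P = C_K(E, Q, q)` of `Ĵ` the polynomial `C_K(E, Q, 1)` has an irreducible factor
`G ∈ ℂ[E, Q]` such that the curve `G = 0` is not of genus zero. -/
theorem result : (∃! f : ℕ → Kv, IsCyclotomic f) ∧
    ∀ f : ℕ → Kv, IsCyclotomic f → (∃ P : Coef[X], IsCPolynomial f P) ∧
      ∀ P : Coef[X], IsCPolynomial f P →
        ∃ G : ℂ[X][X], Irreducible G ∧ G ∣ cCurve P ∧ ¬ GenusZero G := by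
  obtain ⟨f₀, ⟨h1, ⟨P, hP⟩, h3⟩, _⟩ := Pool.Agent.J4.H94.CC.final
  have huniq : ∀ g : ℕ → Kv, IsCyclotomic g → g = f₀ := by
    intro g hg
    apply Pool.Agent.J4.H94.CC.cyc_unique (v := (RatFunc.X : RatFunc ℚ)) RatFunc.X_ne_zero
      (fun n hn => Pool.Agent.J4.H94.CC.X_pow_ne hn)
    intro n hn
    exact (hg n hn).symm.trans (h1 n hn)
  refine ⟨⟨f₀, h1, huniq⟩, fun f hf => ?_⟩
  rw [huniq f hf]
  refine ⟨⟨P, (isC_iff f₀ P).2 hP⟩, fun P' hP' => ?_⟩
  obtain ⟨G, hG, hG1, hG2⟩ := h3 P' ((isC_iff f₀ P').1 hP')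
  refine ⟨G, hG, hG1, ?_⟩
  rintro ⟨x, y, hxy, h0⟩
  exact hxy (hG2 x y h0)

end Pool.Agent.Results.MP_4fdcc5_gt.PositiveGenusCCurve
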